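import Pool.Agent.Lib_helper68.KSL.Defs

/-!
# More than half of the central values are large for infinitely many prime levels. Definitions.

`x` is the coefficient vector of the mollifier `M(f) = ∑_{e ≤ E} x_e λ_f(e) / √e`.
-/

namespace Pool.Agent.LSP

open Pool.Agent.LEV Pool.Agent.LVB Pool.Agent.KSL
open Pool.Agent.FG61 (mu phi cc ff AA Lam)
open Complex MeasureTheory Filter Topology UpperHalfPlane ModularGroup ProbabilityTheory
open scoped MatrixGroups Modular ENNReal ModularForm ComplexConjugate ContDiff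

/-- the number of divisors -/
noncomputable def tau (n : ℕ) : ℝ := (n.divisors.card : ℝ)

/-- the sum of the divisors -/
noncomputable def sg1 (n : ℕ) : ℝ := ∑ d ∈ n.divisors, (d : ℝ)

/-- the weights of the fractions -/
noncomputable def wX (E : ℕ) (x : ℕ → ℝ) (q : ℕ) : ℝ :=
  ∑ e ∈ (Finset.Icc 1 E).filter (fun e => q ∣ e), x e / e * tau (e / q)

/-- the mollifier -/
noncomputable def MX (E : ℕ) (x : ℕ → ℝ) (la : ℕ → ℝ) : ℝ :=
  ∑ e ∈ Finset.Icc 1 E, x e / Real.sqrt e * Um e la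

/-- the coefficients of its square: `M(f)² = ∑ n C(n) λ_f(n) / √n` -/
noncomputable def CC (E : ℕ) (x : ℕ → ℝ) (n : ℕ) : ℝ :=
  ∑ j ∈ Finset.Icc 1 E, (1 / (j : ℝ)) *
    ∑ p ∈ n.divisorsAntidiagonal, x (j * p.1) * x (j * p.2) / n

/-- a Lipschitz weight on the slopes -/
structure KerL (T : ℝ) (ρ : ℝ → ℝ) : Prop extends Ker T ρ where
  lip : ∃ L : ℝ, ∀ s t : ℝ, |ρ s - ρ t| ≤ L * |s - t|

/-- the nonzero integers up to `B E²` -/
noncomputable def Gs (B E : ℕ) : Finset ℤ := (Finset.Icc (-((B * E ^ 2 : ℕ) : ℤ)) ((B * E ^ 2 : ℕ) : ℤ)).erase 0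

/-- the slope of the image point -/
noncomputable def tp (u t y : ℝ) : ℝ := (1 - u) / y - u * (1 + t ^ 2) * y + (1 - 2 * u) * t

/-- the kernel of the off-diagonal terms -/
noncomputable def GG (ρ : ℝ → ℝ) (u : ℝ) : ℝ :=
  ∫ t : ℝ, ∫ y in Set.Ioi (0 : ℝ), (1 - 2 * u + t * tp u t y) * ρ t * ρ (tp u t y) / y

/-- the off-diagonal terms -/
noncomputable def OD (ρ : ℝ → ℝ) (B E : ℕ) (x : ℕ → ℝ) (N : ℕ) : ℝ :=
  2 * Real.pi * ∑ n ∈ Finset.Icc 1 (E ^ 2), CC E x n *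
    ∑ g ∈ Gs B E, tau g.natAbs * tau ((n : ℤ) - g * N).natAbs * GG ρ ((g : ℝ) * N / n)

noncomputable def Cr (ρ : ℝ → ℝ) : ℝ := ∫ t : ℝ, (1 + t ^ 2) * ρ t ^ 2

noncomputable def Cl (ρ : ℝ → ℝ) : ℝ := ∫ t : ℝ, (1 + t ^ 2) * ρ t ^ 2 * Real.log (1 + t ^ 2)

/-- below this height the cones over different fractions are disjoint -/
noncomputable def yo (T : ℝ) (E : ℕ) : ℝ := 1 / (2 * T * (E : ℝ) ^ 2)

/-- the terms of pairs of geodesics with a common end point -/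
noncomputable def sh (ρ : ℝ → ℝ) (T : ℝ) (E : ℕ) (x : ℕ → ℝ) (N : ℕ) : ℝ :=
  2 * Real.pi * (∫ y in Set.Ioi (yo T E), ∑' n : ℕ,
      (‖kh ρ ((n + 1) * y)‖ ^ 2 + ‖kh ρ (-((n + 1) * y))‖ ^ 2) * WW E (wX E x) (n + 1) ^ 2) +
    Real.pi * ∑ q ∈ Finset.Icc 1 E, phi q * wX E x q ^ 2 *
      (Cr ρ * (2 * Real.log (yo T E) + Real.log ((N : ℝ) * (q : ℝ) ^ 2)) + Cl ρ)

/-- the square of the dual norm of the mollified central value -/
noncomputable def QN (ρ : ℝ → ℝ) (T : ℝ) (B E : ℕ) (x : ℕ → ℝ) (N : ℕ) : ℝ :=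
  sh ρ T E x N + OD ρ B E x N

/-- the rough part of the coefficients of the mollifier -/
noncomputable def xr (z M K r : ℕ) : ℝ :=
  (r : ℝ) * ∑ m ∈ Finset.Icc 1 (K * M), mu m * yE z M K (r * m)

/-- the coefficients of the mollifier `(∑ a_k λ(k)) · Mr` -/
noncomputable def xX (z M K : ℕ) (a : ℕ → ℝ) (e : ℕ) : ℝ :=
  if e = 0 then 0 else
    a (smp z e) * Real.sqrt (smp z e) * xr z M K (rop z e)

/-- the properties of the coefficients used in the arithmetic part -/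
structure Adm (κ : ℝ) (B B' X E : ℕ) (x : ℕ → ℝ) : Prop where
  supp : ∀ e, x e ≠ 0 → 1 ≤ e ∧ e ≤ E
  size : (E : ℝ) ≤ (X : ℝ) ^ (1 / 2 + 101 / 100 * κ)
  bdd : ∀ e, |x e| ≤ (X : ℝ) ^ (κ / 1000)
  zero : ∑ e ∈ Finset.Icc 1 E, x e * sg1 e / e = 0
  mob : ∀ c z₁ z₂ : ℕ, 1 ≤ c → (c : ℝ) ≤ (X : ℝ) ^ (6 * κ) → (X : ℝ) ^ (1 / 2 : ℝ) ≤ z₁ →
    |∑ n ∈ Finset.Ioc z₁ z₂, CC E x n * cc c n| ≤ tau c ^ B / Real.log X ^ B'

end Pool.Agent.LSP
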