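import Pool.Agent.Lib_helper41.LSP.Defs

/-! LSP, part G: definitions for the geometry. -/

namespace Pool.Agent.LSP

open Pool.Agent.LEV Pool.Agent.LVB Pool.Agent.KSL
open Pool.Agent.FG61 (mu phi cc ff AA Lam)
open Complex MeasureTheory Filter Topology UpperHalfPlane ModularGroup ProbabilityTheory
open scoped MatrixGroups Modular ENNReal ModularForm ComplexConjugate ContDiff

/-- integral matrices -/
abbrev M2 : Type := Matrix (Fin 2) (Fin 2) ℤ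

/-- the point `x + i y` -/
noncomputable def pt (x y : ℝ) : ℍ := UpperHalfPlane.ofComplex ((x : ℂ) + (y : ℂ) * Complex.I)

/-- `(a z + b) / (c z + d)` -/
noncomputable def mz (A : M2) (z : ℍ) : ℍ :=
  UpperHalfPlane.ofComplex ((((A 0 0 : ℤ) : ℂ) * (z : ℂ) + ((A 0 1 : ℤ) : ℂ)) /
    (((A 1 0 : ℤ) : ℂ) * (z : ℂ) + ((A 1 1 : ℤ) : ℂ)))

/-- the action of integral matrices in weight 2 -/
noncomputable def sl2 (A : M2) (F : ℍ → ℂ) (z : ℍ) : ℂ :=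
  ((A.det : ℤ) : ℂ) / (((A 1 0 : ℤ) : ℂ) * (z : ℂ) + ((A 1 1 : ℤ) : ℂ)) ^ 2 * F (mz A z)

/-- the inner product of functions of weight 2 over the upper half plane -/
noncomputable def ipH (F G : ℍ → ℂ) : ℂ := ∫ z : ℍ, F z * conj (G z) * ((z.im ^ 2 : ℝ) : ℂ)

/-- bounded measurable functions whose support is bounded and away from the real line -/
def Bd (K : ℍ → ℂ) : Prop := Measurable K ∧ ∃ y₀ R : ℝ, 0 < y₀ ∧ (∀ z, ‖K z‖ ≤ R) ∧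
  ∀ z : ℍ, K z ≠ 0 → y₀ ≤ z.im ∧ z.im ≤ R ∧ |z.re| ≤ R

/-- the inner product of the foldings of `K` and `L` over `Γ₀(N)` -/
noncomputable def PP (N : ℕ) (K L : ℍ → ℂ) : ℂ :=
  (1 / 2) * ∑' γ : CongruenceSubgroup.Gamma0 N, ipH K (L ∣[(2 : ℤ)] (γ : SL(2, ℤ)))

/-- the cone over the geodesic from `l` to `∞` -/
noncomputable def cone (ρ : ℝ → ℝ) (l : ℝ) (z : ℍ) : ℂ :=
  ((ρ ((z.re - l) / z.im) / z.im : ℝ) : ℂ) * (1 + (((z.re - l) / z.im : ℝ) : ℂ) * Complex.I)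

/-- the sum of the cones -/
noncomputable def KC (ρ : ℝ → ℝ) (E : ℕ) (w : ℕ → ℝ) (z : ℍ) : ℂ :=
  ∑ q ∈ Finset.Icc 1 E, (w q : ℂ) * ∑ j ∈ RR q, cone ρ ((j : ℝ) / q) z

/-- the slope of `C z` -/
noncomputable def slp (C : M2) (z : ℍ) : ℝ :=
  ((C 0 0 * z.re + C 0 1) * (C 1 0 * z.re + C 1 1) + C 0 0 * C 1 0 * z.im ^ 2) / (C.det * z.im)

/-- `(cone 0) | C` -/
noncomputable def coneC (ρ : ℝ → ℝ) (C : M2) (z : ℍ) : ℂ :=
  (Complex.I / ((C.det : ℤ) : ℂ)) *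
    conj (((C 0 0 : ℤ) * (z : ℂ) + (C 0 1 : ℤ)) * ((C 1 0 : ℤ) * (z : ℂ) + (C 1 1 : ℤ))) *
    ((ρ (slp C z) / z.im ^ 2 : ℝ) : ℂ)

/-- the inner product of two cones -/
noncomputable def JJ (ρ : ℝ → ℝ) (C : M2) : ℂ := ipH (cone ρ 0) (coneC ρ C)

/-- the cross ratio -/
noncomputable def cr (C : M2) : ℝ := -((C 0 1 * C 1 0 : ℤ) : ℝ) / (C.det : ℤ)

/-- both end points of the two geodesics are different -/
def Nsh (C : M2) : Prop := C 0 1 ≠ 0 ∧ C 1 0 ≠ 0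

/-- `(a, b, d)`: the matrices `(a -b; 0 d)` of determinant `e` modulo translations -/
def HM (e : ℕ) : Finset (ℕ × ℕ × ℕ) :=
  (Finset.range (e + 1) ×ˢ Finset.range (e + 1) ×ˢ Finset.range (e + 1)).filter
    (fun t => t.1 * t.2.2 = e ∧ t.2.1 < t.1)

/-- the matrix `(a -b; 0 d)` -/
def UT (t : ℕ × ℕ × ℕ) : M2 := !![(t.1 : ℤ), -(t.2.1 : ℤ); 0, (t.2.2 : ℤ)]

/-- the content of a matrix -/
def cont (C : M2) : ℕ := Nat.gcd (Nat.gcd (C 0 0).natAbs (C 0 1).natAbs)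
  (Nat.gcd (C 1 0).natAbs (C 1 1).natAbs)

/-- matrices of determinant `n` with `N ∣ c` -/
def DN (N n : ℕ) : Set M2 := {C | (N : ℤ) ∣ C 1 0 ∧ C.det = n}

/-- the cone, truncated at height `Y` at both ends -/
noncomputable def coneY (ρ : ℝ → ℝ) (N q : ℕ) (l Y : ℝ) (z : ℍ) : ℂ :=
  open Classical in
  if z.im < Y ∧ z.im < Y * (N * (q : ℝ) ^ 2 * ‖(z : ℂ) - (l : ℂ)‖ ^ 2) then cone ρ l z else 0

/-- the truncated kernel of the mollified central value -/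
noncomputable def KY (ρ : ℝ → ℝ) (N E : ℕ) (w : ℕ → ℝ) (Y : ℝ) (z : ℍ) : ℂ :=
  ∑ q ∈ Finset.Icc 1 E, (w q : ℂ) * ∑ j ∈ RR q, coneY ρ N q ((j : ℝ) / q) Y z

/-- the matrix exchanging the geodesics `(j/q, ∞)` and `(∞, a/q)` -/
def Vm (N q j a : ℕ) (b : ℤ) : M2 := !![(N : ℤ) * a, b; (N : ℤ) * q, -((N : ℤ) * j)]

/-- `γ (j/q) = j'/q'` -/
def Bsh (γ : SL(2, ℤ)) (q j q' j' : ℕ) : Prop :=
  (γ 0 0 * j + γ 0 1 * q) * q' = (γ 1 0 * j + γ 1 1 * q) * j'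

open Classical in
/-- sum of the inner products of the (truncated) cones over the pairs with the property `S` -/
noncomputable def PS (ρ : ℝ → ℝ) (N E : ℕ) (w : ℕ → ℝ) (Y : ℝ)
    (S : SL(2, ℤ) → ℕ → ℕ → ℕ → ℕ → Prop) : ℂ :=
  (1 / 2) * ∑ q ∈ Finset.Icc 1 E, ∑ j ∈ RR q, ∑ q' ∈ Finset.Icc 1 E, ∑ j' ∈ RR q',
    (w q : ℂ) * (w q' : ℂ) * ∑' γ : CongruenceSubgroup.Gamma0 N,
      if S (γ : SL(2, ℤ)) q j q' j' then ipH (coneY ρ N q ((j : ℝ) / q) Y)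
        ((coneY ρ N q' ((j' : ℝ) / q') Y) ∣[(2 : ℤ)] (γ : SL(2, ℤ))) else 0

open Classical in
/-- the sum over the pairs of cones without common end point -/
noncomputable def NS (ρ : ℝ → ℝ) (N E : ℕ) (w : ℕ → ℝ) : ℂ :=
  (1 / 2) * ∑ q ∈ Finset.Icc 1 E, ∑ j ∈ RR q, ∑ q' ∈ Finset.Icc 1 E, ∑ j' ∈ RR q',
    (w q : ℂ) * (w q' : ℂ) * ∑' γ : CongruenceSubgroup.Gamma0 N,
      if (γ : SL(2, ℤ)) 1 0 ≠ 0 ∧ ¬ Bsh (γ : SL(2, ℤ)) q j q' j' then ipH (cone ρ ((j : ℝ) / q))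
        ((cone ρ ((j' : ℝ) / q')) ∣[(2 : ℤ)] (γ : SL(2, ℤ))) else 0

open Classical in
/-- the kernel of a Hecke polynomial -/
noncomputable def KS (m₀ : ℕ) (s : ℕ → ℝ) (yS Y : ℝ) (z : ℍ) : ℂ :=
  if 0 ≤ z.re ∧ z.re < 1 ∧ yS < z.im ∧ z.im < Y then
    ∑ m ∈ Finset.Icc 1 m₀, ((s m * (2 * Real.sqrt m) * Real.exp (4 * Real.pi * m * yS) : ℝ) : ℂ) *
      cexp (2 * Real.pi * Complex.I * m * (z : ℂ)) else 0

end Pool.Agent.LSP
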